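import Pool.Agent.Helper16.DIL.Spec

/-!
Part C3 of Pool.Agent.Helper16.DIL.Spec (MP_a93a41_nt): counting the vectors of integers with a
given rank.
-/

set_option autoImplicit false

namespace Pool.Agent.Helper73.DIL.C3

open Pool.Agent.Helper16.DIL

lemma fact_le (a N p : ℕ) (ha : 1 ≤ a) (haN : a ≤ N) : a.factorization p ≤ Nat.log 2 N := by
  by_cases hp : p.Prime
  · apply Nat.le_log_of_pow_le (by norm_num)
    calc 2 ^ a.factorization p ≤ p ^ a.factorization p := Nat.pow_le_pow_left hp.two_le _
      _ ≤ a := Nat.ordProj_le p (by omega)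
      _ ≤ N := haN
  · rw [Nat.factorization_eq_zero_of_not_prime _ hp]; exact Nat.zero_le _

lemma exists_g {k N : ℕ} (hN : 2 ≤ N) (n : Fin (k + 1) → ℕ) (hn : ∀ i, 1 ≤ n i ∧ n i ≤ N) :
    ∃ g : Fin (k + 1) → Fin (k + 1) → Fin (Nat.log 2 N + 1),
      Wn n = Submodule.span ℚ (Set.range fun j => fun i => ((g j i : ℕ) : ℚ)) := by
  classical
  have hL : 1 ≤ Nat.log 2 N := Nat.le_log_of_pow_le (by norm_num) (by simpa using hN)
  have hA : ∀ v ∈ (insert (fun _ => 1) (Set.range (vp n)) : Set (Fin (k + 1) → ℚ)),
      ∃ g : Fin (k + 1) → Fin (Nat.log 2 N + 1), v = fun i => ((g i : ℕ) : ℚ) := by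
    intro v hv
    rcases hv with rfl | ⟨p, rfl⟩
    · exact ⟨fun _ => ⟨1, by omega⟩, by funext i; simp⟩
    · refine ⟨fun i => ⟨(n i).factorization p, ?_⟩, ?_⟩
      · have := fact_le (n i) N p (hn i).1 (hn i).2
        omega
      · funext i; simp [vp]
  obtain ⟨b, hb1, hb2, hb3⟩ := exists_linearIndependent ℚ
    (insert (fun _ => 1) (Set.range (vp n)) : Set (Fin (k + 1) → ℚ))
  have : Finite b := hb3.finite
  let _ : Fintype b := Fintype.ofFinite b
  have hcard : Fintype.card b ≤ Fintype.card (Fin (k + 1)) := by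
    have := hb3.fintype_card_le_finrank
    simpa using this
  have hbne : Nonempty b := by
    by_contra hempty
    rw [not_nonempty_iff, Set.isEmpty_coe_sort] at hempty
    rw [hempty, Submodule.span_empty] at hb2
    have h1 : (fun _ => 1 : Fin (k + 1) → ℚ) ∈ (⊥ : Submodule ℚ (Fin (k + 1) → ℚ)) := by
      rw [hb2]; exact Submodule.subset_span (Set.mem_insert _ _)
    rw [Submodule.mem_bot] at h1
    have := congrFun h1 0
    simp at this
  obtain ⟨e⟩ := Function.Embedding.nonempty_of_card_le hcard
  have hsurj : Function.Surjective (Function.invFun e) := Function.invFun_surjective e.injective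
  choose g hg using fun j : Fin (k + 1) => hA _ (hb1 (Function.invFun e j).2)
  refine ⟨g, ?_⟩
  unfold Wn
  rw [← hb2]
  congr 1
  ext v
  constructor
  · intro hv
    obtain ⟨j, hj⟩ := hsurj ⟨v, hv⟩
    refine ⟨j, ?_⟩
    simp only
    rw [← hg j, hj]
  · rintro ⟨j, rfl⟩
    simp only
    rw [← hg j]
    exact (Function.invFun e j).2

theorem main (hC0 : S_C0) : S_C3 := by
  classical
  intro k N s hN
  rcases Nat.lt_or_ge N 2 with hN2 | hN2
  · have hN1 : N = 1 := by omega
    subst hN1
    have hsub : {n : Fin (k + 1) → ℕ | (∀ i, 1 ≤ n i ∧ n i ≤ 1) ∧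
        Module.finrank ℚ (Wn n) = s} ⊆ {fun _ => 1} := by
      rintro n ⟨hn, _⟩
      rw [Set.mem_singleton_iff]
      funext i
      have := hn i
      omega
    have h1 := Set.ncard_le_ncard hsub (Set.finite_singleton _)
    rw [Set.ncard_singleton] at h1
    simpa using h1
  · set L := Nat.log 2 N with hLdef
    choose! G hG using fun (n : Fin (k + 1) → ℕ) (hn : ∀ i, 1 ≤ n i ∧ n i ≤ N) =>
      exists_g hN2 n hn
    choose I hI1 hI2 using fun U : Submodule ℚ (Fin (k + 1) → ℚ) => hC0 (k + 1) U
    have hNpos : 0 < N := by omega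
    -- the restriction map
    let r : (Fin (k + 1) → ℕ) → (Fin s → Fin N) := fun n =>
      if h : (I (Wn n)).card = s then
        fun j => ⟨(n ((I (Wn n)).orderEmbOfFin h j) - 1) % N, Nat.mod_lt _ hNpos⟩
      else fun _ => ⟨0, hNpos⟩
    let f : (Fin (k + 1) → ℕ) → (Fin (k + 1) → Fin (k + 1) → Fin (L + 1)) × (Fin s → Fin N) :=
      fun n => (G n, r n)
    have hinj : Set.InjOn f {n : Fin (k + 1) → ℕ | (∀ i, 1 ≤ n i ∧ n i ≤ N) ∧
        Module.finrank ℚ (Wn n) = s} := by
      rintro n ⟨hn, hns⟩ n' ⟨hn', hns'⟩ hff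
      have h1 : G n = G n' := congrArg Prod.fst hff
      have h2 : r n = r n' := congrArg Prod.snd hff
      have hW : Wn n = Wn n' := by rw [hG n hn, hG n' hn', h1]
      have hc : (I (Wn n)).card = s := by rw [hI1, hns]
      have hc' : (I (Wn n')).card = s := by rw [hI1, hns']
      have hagree : ∀ i ∈ I (Wn n), n i = n' i := by
        intro i hi
        have hr : ∀ j, (n ((I (Wn n)).orderEmbOfFin hc j) - 1) % N =
            (n' ((I (Wn n')).orderEmbOfFin hc' j) - 1) % N := by
          intro j
          have h3 := congrFun h2 j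
          simp only [r, dif_pos hc, dif_pos hc'] at h3
          exact congrArg Fin.val h3
        have hi' : i ∈ Set.range ((I (Wn n)).orderEmbOfFin hc) := by
          rw [Finset.range_orderEmbOfFin]; exact hi
        obtain ⟨j, rfl⟩ := hi'
        have h4 := hr j
        have h5 : (I (Wn n')).orderEmbOfFin hc' j = (I (Wn n)).orderEmbOfFin hc j := by
          congr 1
          simp only [hW]
        rw [h5] at h4
        have a1 := hn ((I (Wn n)).orderEmbOfFin hc j)
        have a2 := hn' ((I (Wn n)).orderEmbOfFin hc j)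
        rw [Nat.mod_eq_of_lt (by omega), Nat.mod_eq_of_lt (by omega)] at h4
        omega
      have hvp : ∀ p, vp n p = vp n' p := by
        intro p
        have hmem : vp n p - vp n' p ∈ Wn n := by
          apply Submodule.sub_mem
          · exact Submodule.subset_span (Set.mem_insert_of_mem _ ⟨p, rfl⟩)
          · rw [hW]; exact Submodule.subset_span (Set.mem_insert_of_mem _ ⟨p, rfl⟩)
        have h0 := hI2 (Wn n) _ hmem (by
          intro i hi
          simp only [Pi.sub_apply, vp, hagree i hi, sub_self])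
        exact sub_eq_zero.1 h0
      funext i
      apply Nat.eq_of_factorization_eq
      · have := hn i; omega
      · have := hn' i; omega
      · intro p
        have := congrFun (hvp p) i
        simp only [vp] at this
        exact_mod_cast this
    have hle := Set.ncard_le_ncard_of_injOn f (fun a _ => Set.mem_univ (f a)) hinj
      Set.finite_univ
    refine hle.trans ?_
    rw [Set.ncard_univ, Nat.card_eq_fintype_card, Fintype.card_prod]
    simp only [Fintype.card_fun, Fintype.card_fin]
    rw [← pow_mul]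

end Pool.Agent.Helper73.DIL.C3
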